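import Pool.Agent.Lib.MP_1501ba_gt.Final

/-!
# A minimal monotone map onto the interval from a continuum which is far from irreducible

There are a continuum `M` and a minimal monotone map `f` of `M` onto `[0,1]` such that the preimage
of every proper closed subset of `[0,1]` lies in a proper subcontinuum of `M` which `f` maps onto
`[0,1]`. In particular `M` is not irreducible between any two points, nor about any finite set.
-/

set_option autoImplicit false

namespace Pool.Agent.Results.MP_1501ba_gt.NotIrreducible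

open Set

/-- `K` is a subcontinuum: a nonempty compact connected subset. -/
def Subcontinuum {M : Type} [TopologicalSpace M] (K : Set M) : Prop :=
  K.Nonempty ∧ IsCompact K ∧ IsPreconnected K

/-- `M` is irreducible: for some points `a`, `b` no proper subcontinuum contains both. -/
def Irreducible (M : Type) [TopologicalSpace M] : Prop :=
  ∃ a b : M, ¬ ∃ K : Set M, Subcontinuum K ∧ K ≠ univ ∧ a ∈ K ∧ b ∈ K

/-- The restriction of `f` to `D` is a monotone map of `D` onto `[0,1]`: all its fibres are nonempty
and connected. -/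
def MonotoneOnto {M : Type} [TopologicalSpace M] (f : M → unitInterval) (D : Set M) : Prop :=
  ∀ t : unitInterval, (D ∩ f ⁻¹' {t}).Nonempty ∧ IsPreconnected (D ∩ f ⁻¹' {t})

/-- `f` is a minimal monotone map of `M` onto `[0,1]`. -/
def MinimalMonotone {M : Type} [TopologicalSpace M] (f : M → unitInterval) : Prop :=
  Continuous f ∧ MonotoneOnto f univ ∧
    ∀ D : Set M, IsClosed D → D ≠ univ → f '' D = univ → ¬ MonotoneOnto f D

open Pool.Agent.Lib.MP_1501ba_gt in
/-- `K` and the fibres over the points of `A` -/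
private def bigK (A : Set unitInterval) : Set ↥M := {p | p.1 ∈ K} ∪ proj ⁻¹' A

open Pool.Agent.Lib.MP_1501ba_gt in
private lemma preconnected_K' : IsPreconnected {p : ↥M | p.1 ∈ K} := by
  rw [← isPreconnected_val]
  have : Subtype.val '' {p : ↥M | p.1 ∈ K} = K := by
    ext p
    constructor
    · rintro ⟨w, hw, rfl⟩
      exact hw
    · intro hp
      exact ⟨⟨p, K_subset_M hp⟩, hp, rfl⟩
  rw [this]
  exact isPreconnected_K

open Pool.Agent.Lib.MP_1501ba_gt in
private lemma preconnected_bigK (A : Set unitInterval) : IsPreconnected (bigK A) := by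
  refine isPreconnected_of_forall_pair fun x hx y hy => ?_
  rcases hx with hx | hx
  · rcases hy with hy | hy
    · exact ⟨{p : ↥M | p.1 ∈ K}, subset_union_left, hx, hy, preconnected_K'⟩
    · refine ⟨bad (proj y) (proj y), ?_, Or.inl (Or.inl hx), Or.inr rfl, isPreconnected_bad _ _⟩
      rintro p ((hp | hp) | hp)
      · exact Or.inl hp
      · right
        change proj p ∈ A
        rw [show proj p = proj y from hp]
        exact hy
      · right
        change proj p ∈ A
        rw [show proj p = proj y from hp]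
        exact hy
  · rcases hy with hy | hy
    · refine ⟨bad (proj x) (proj x), ?_, Or.inr rfl, Or.inl (Or.inl hy), isPreconnected_bad _ _⟩
      rintro p ((hp | hp) | hp)
      · exact Or.inl hp
      · right
        change proj p ∈ A
        rw [show proj p = proj x from hp]
        exact hx
      · right
        change proj p ∈ A
        rw [show proj p = proj x from hp]
        exact hx
    · refine ⟨bad (proj x) (proj y), ?_, Or.inl (Or.inr rfl), Or.inr rfl, isPreconnected_bad _ _⟩
      rintro p ((hp | hp) | hp)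
      · exact Or.inl hp
      · right
        change proj p ∈ A
        rw [show proj p = proj x from hp]
        exact hx
      · right
        change proj p ∈ A
        rw [show proj p = proj y from hp]
        exact hy

open Pool.Agent.Lib.MP_1501ba_gt in
private lemma bigK_ne_univ {A : Set unitInterval} (hA : A ≠ univ) : bigK A ≠ univ := by
  intro h
  obtain ⟨u, hu⟩ := (ne_univ_iff_exists_notMem A).1 hA
  obtain ⟨c, hc⟩ := exists_digits u.2
  have hmem : Φ (line 1, c) ∈ M := ⟨_, ⟨line_mem 1, mem_univ _⟩, rfl⟩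
  have hin : (⟨Φ (line 1, c), hmem⟩ : ↥M) ∈ bigK A := by rw [h]; exact mem_univ _
  have hval : proj ⟨Φ (line 1, c), hmem⟩ = u := Subtype.ext hc
  rcases hin with hin | hin
  · obtain ⟨z, hz⟩ := hin
    have h3 : δ (q fun n => (z n).1) = δ (line 1) := congrArg (fun p : P => p.2.2.1) hz
    rw [(δ_eq_zero _).2 ⟨_, rfl⟩] at h3
    exact line_one_not_mem ((δ_eq_zero _).1 h3.symm)
  · have h4 : proj ⟨Φ (line 1, c), hmem⟩ ∈ A := hin
    rw [hval] at h4
    exact hu h4

theorem result :
    ∃ (M : Type) (_ : MetricSpace M) (_ : CompactSpace M) (_ : ConnectedSpace M)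
      (f : M → unitInterval), MinimalMonotone f ∧ ¬ Irreducible M ∧
      ∀ A : Set unitInterval, IsClosed A → A ≠ univ →
        ∃ K : Set M, Subcontinuum K ∧ K ≠ univ ∧ f ⁻¹' A ⊆ K ∧ f '' K = univ := by
  letI : MetricSpace ↥Lib.MP_1501ba_gt.M :=
    TopologicalSpace.metrizableSpaceMetric ↥Lib.MP_1501ba_gt.M
  have key : ∀ A : Set unitInterval, IsClosed A → A ≠ univ →
      ∃ K : Set ↥Lib.MP_1501ba_gt.M, Subcontinuum K ∧ K ≠ univ ∧
        Lib.MP_1501ba_gt.proj ⁻¹' A ⊆ K ∧ Lib.MP_1501ba_gt.proj '' K = univ := by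
    intro A hA hne
    have hcl : IsClosed (bigK A) :=
      (Lib.MP_1501ba_gt.isClosed_K.preimage continuous_subtype_val).union
        (hA.preimage Lib.MP_1501ba_gt.proj.continuous)
    have honto : Lib.MP_1501ba_gt.proj '' (bigK A) = univ := by
      refine eq_univ_of_forall fun t => ?_
      obtain ⟨p, hp, hpt⟩ := Lib.MP_1501ba_gt.exists_K t.2
      exact ⟨⟨p, Lib.MP_1501ba_gt.K_subset_M hp⟩, Or.inl hp, Subtype.ext hpt⟩
    refine ⟨bigK A, ⟨?_, hcl.isCompact, preconnected_bigK A⟩, bigK_ne_univ hne,
      subset_union_right, honto⟩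
    have h1 : (0 : unitInterval) ∈ Lib.MP_1501ba_gt.proj '' (bigK A) := by
      rw [honto]
      exact mem_univ _
    obtain ⟨x, hx, -⟩ := h1
    exact ⟨x, hx⟩
  refine ⟨↥Lib.MP_1501ba_gt.M, inferInstance, inferInstance, inferInstance,
    Lib.MP_1501ba_gt.proj, ⟨Lib.MP_1501ba_gt.proj.continuous, ?_, ?_⟩, ?_, key⟩
  · intro t
    rw [univ_inter]
    obtain ⟨x, hx⟩ := Lib.MP_1501ba_gt.proj_surjective t
    exact ⟨⟨x, hx⟩, Lib.MP_1501ba_gt.proj_fibre t⟩
  · intro D hD hne hsurj hmono
    exact Lib.MP_1501ba_gt.proj_minimal D hD hne hsurj (fun t => (hmono t).2)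
  · rintro ⟨a, b, hab⟩
    apply hab
    let A : Set unitInterval := {Lib.MP_1501ba_gt.proj a, Lib.MP_1501ba_gt.proj b}
    have hAfin : A.Finite := by simp [A]
    have hA : A ≠ univ := by
      intro h
      have h1 : (univ : Set unitInterval).Infinite := by
        rw [infinite_univ_iff]
        exact (Icc_infinite (zero_lt_one (α := ℝ))).to_subtype
      rw [← h] at h1
      exact h1 hAfin
    obtain ⟨K, hK, hne, hsub, -⟩ := key A hAfin.isClosed hA
    exact ⟨K, hK, hne, hsub (Or.inl rfl), hsub (Or.inr rfl)⟩

end Pool.Agent.Results.MP_1501ba_gt.NotIrreducible
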